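import Mathlib

set_option autoImplicit false

open scoped ContDiff Topology Uniformity
open Set

namespace Pool.Agent.Helper19

variable {K : Type} [TopologicalSpace K] [CompactSpace K]
variable {E F : Type} [NormedAddCommGroup E] [NormedSpace ℝ E]
  [NormedAddCommGroup F] [NormedSpace ℝ F]

/-- The superposition operator `g ↦ f ∘ g` on continuous maps. -/
noncomputable def nem (f : E → F) (hf : Continuous f) (g : C(K, E)) : C(K, F) :=
  (ContinuousMap.mk f hf).comp g

@[simp] theorem nem_apply (f : E → F) (hf : Continuous f) (g : C(K, E)) (t : K) :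
    nem f hf g t = f (g t) := rfl

/-- Pointwise application as a continuous bilinear map. -/
noncomputable def mulOp : C(K, E →L[ℝ] F) →L[ℝ] C(K, E) →L[ℝ] C(K, F) :=
  LinearMap.mkContinuous₂
    (LinearMap.mk₂ ℝ (fun (A : C(K, E →L[ℝ] F)) (h : C(K, E)) =>
      (⟨fun t => A t (h t), by fun_prop⟩ : C(K, F)))
      (by intro A B h; ext t; simp)
      (by intro c A h; ext t; simp)
      (by intro A h h'; ext t; simp)
      (by intro c A h; ext t; simp))
    1
    (by
      intro A h
      rw [one_mul]
      rw [ContinuousMap.norm_le _ (by positivity)]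
      intro t
      refine (ContinuousLinearMap.le_opNorm _ _).trans ?_
      gcongr
      · exact A.norm_coe_le_norm t
      · exact h.norm_coe_le_norm t)

@[simp] theorem mulOp_apply (A : C(K, E →L[ℝ] F)) (h : C(K, E)) (t : K) :
    mulOp A h t = A t (h t) := rfl

theorem hasFDerivAt_nem {f : E → F} (hf : ContDiff ℝ 1 f) (g : C(K, E)) :
    HasFDerivAt (nem (K := K) f hf.continuous)
      (mulOp (nem (fderiv ℝ f) (hf.continuous_fderiv one_ne_zero) g)) g := by
  rw [hasFDerivAt_iff_isLittleO_nhds_zero]
  rw [Asymptotics.isLittleO_iff]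
  intro ε hε
  have hK : IsCompact (range g) := isCompact_range g.continuous
  have hcont : Continuous (fderiv ℝ f) := hf.continuous_fderiv one_ne_zero
  have hu := hK.uniformContinuousAt_of_continuousAt (fderiv ℝ f)
    (fun a _ => hcont.continuousAt) (Metric.dist_mem_uniformity hε)
  rw [Metric.mem_uniformity_dist] at hu
  obtain ⟨δ, hδ, hu⟩ := hu
  filter_upwards [Metric.ball_mem_nhds (0 : C(K, E)) hδ] with h hh
  rw [mem_ball_zero_iff] at hh
  rw [ContinuousMap.norm_le _ (by positivity)]
  intro t
  have hdiff : Differentiable ℝ f := hf.differentiable one_ne_zero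
  have key : ∀ z ∈ segment ℝ (g t) (g t + h t), ‖fderiv ℝ f z - fderiv ℝ f (g t)‖ ≤ ε := by
    intro z hz
    have hz' : dist (g t) z < δ := by
      obtain ⟨s, hs, rfl⟩ := (segment_eq_image' ℝ (g t) (g t + h t)) ▸ hz
      simp only [add_sub_cancel_left]
      rw [dist_eq_norm]
      have : g t - (g t + s • h t) = -(s • h t) := by abel
      rw [this, norm_neg, norm_smul]
      have h1 : ‖h t‖ < δ := (h.norm_coe_le_norm t).trans_lt hh
      have h2 : ‖s‖ ≤ 1 := by rw [Real.norm_of_nonneg hs.1]; exact hs.2
      calc ‖s‖ * ‖h t‖ ≤ 1 * ‖h t‖ := by gcongr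
        _ < δ := by simpa using h1
    have := hu (a := g t) (b := z) hz' (mem_range_self t)
    simp only [mem_setOf_eq] at this
    rw [dist_comm, dist_eq_norm] at this
    exact this.le
  have := Convex.norm_image_sub_le_of_norm_hasFDerivWithin_le'
    (f := f) (f' := fderiv ℝ f) (φ := fderiv ℝ f (g t)) (C := ε)
    (s := segment ℝ (g t) (g t + h t)) (x := g t) (y := g t + h t)
    (fun z _ => (hdiff z).hasFDerivAt.hasFDerivWithinAt) key (convex_segment _ _)
    (left_mem_segment _ _ _) (right_mem_segment _ _ _)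
  simp only [add_sub_cancel_left] at this
  calc _ = ‖f (g t + h t) - f (g t) - fderiv ℝ f (g t) (h t)‖ := by simp
    _ ≤ ε * ‖h t‖ := this
    _ ≤ ε * ‖h‖ := by gcongr; exact h.norm_coe_le_norm t

theorem contDiff_nem_nat (n : ℕ) : ∀ {F : Type} [NormedAddCommGroup F] [NormedSpace ℝ F]
    {f : E → F} (hf : ContDiff ℝ ∞ f),
    ContDiff ℝ n (nem (K := K) f hf.continuous) := by
  induction n with
  | zero =>
    intro F _ _ f hf
    rw [Nat.cast_zero, contDiff_zero]
    have h1 : ContDiff ℝ 1 f := hf.of_le (by exact_mod_cast le_top)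
    have : Differentiable ℝ (nem (K := K) f hf.continuous) := fun g =>
      (hasFDerivAt_nem h1 g).differentiableAt
    exact this.continuous
  | succ n ih =>
    intro F _ _ f hf
    have h1 : ContDiff ℝ 1 f := hf.of_le (by exact_mod_cast le_top)
    have h2 : ContDiff ℝ ∞ (fderiv ℝ f) := hf.fderiv_right (m := ∞) (by simp)
    rw [Nat.cast_succ, contDiff_succ_iff_hasFDerivAt]
    refine ⟨fun g => mulOp (nem (K := K) (fderiv ℝ f) h2.continuous g), ?_, fun g => ?_⟩
    · exact (mulOp (K := K) (E := E) (F := F)).contDiff.comp (ih h2)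
    · exact hasFDerivAt_nem h1 g

theorem contDiff_nem {f : E → F} (hf : ContDiff ℝ ∞ f) :
    ContDiff ℝ ∞ (nem (K := K) f hf.continuous) := by
  rw [contDiff_infty]
  intro n
  exact contDiff_nem_nat n hf

end Pool.Agent.Helper19
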